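import Pool.Agent.Helper24.PT.USlots
import Pool.Agent.Helper7.TX4

/-!
Products of divisor classes are killed by the skew central endomorphisms; the action of an
endomorphism on the labelled components.
-/

namespace Pool.Agent.Helper7

open Module NumberField LieAlgebra Pool.Agent.Helper24

set_option linter.unusedSectionVars false

section wedge

variable {W : Type} [AddCommGroup W] [Module ℂ W]

lemma sum_lo_hi {k : ℕ} (f : Fin (2 * k) → ℂ) : ∑ r, f r = ∑ a : Fin k, (f (lo a) + f (hi a)) := by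
  classical
  let g : Fin k × Bool → Fin (2 * k) := fun p => if p.2 = true then hi p.1 else lo p.1
  have hg : Function.Bijective g := by
    constructor
    · rintro ⟨a, b⟩ ⟨a', b'⟩ h
      cases b <;> cases b' <;> simp only [g, Bool.false_eq_true, if_false, if_true] at h
      · rw [lo_inj h]
      · exact absurd h (lo_ne_hi _ _)
      · exact absurd h.symm (lo_ne_hi _ _)
      · rw [hi_inj h]
    · intro r
      obtain ⟨a, rfl | rfl⟩ := eq_lo_or_hi r
      · exact ⟨(a, false), rfl⟩
      · exact ⟨(a, true), rfl⟩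
  rw [← hg.sum_comp f, Fintype.sum_prod_type]
  refine Finset.sum_congr rfl fun a _ => ?_
  rw [Fintype.sum_bool]
  show f (hi a) + f (lo a) = f (lo a) + f (hi a)
  rw [add_comm]

lemma actForm_prodBilin_skew {k : ℕ} (J : Module.End ℂ W) (γ : Fin k → (W →ₗ[ℂ] W →ₗ[ℂ] ℂ))
    (h : ∀ a u v, γ a (J u) v + γ a u (J v) = 0) : actForm J (prodBilin γ) = 0 := by
  classical
  apply MultilinearMap.ext
  intro v
  rw [actForm_apply, sum_lo_hi]
  refine Finset.sum_eq_zero fun a _ => ?_
  have e1 : prodBilin γ (Function.update v (lo a) (J (v (lo a)))) =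
      γ a (J (v (lo a))) (v (hi a)) * ∏ b ∈ ({a} : Finset (Fin k))ᶜ,
        γ b (v (lo b)) (v (hi b)) := by
    show ∏ b, γ b (Function.update v (lo a) (J (v (lo a))) (lo b))
      (Function.update v (lo a) (J (v (lo a))) (hi b)) = _
    rw [Fintype.prod_eq_mul_prod_compl a]
    simp only [update_lo_lo, update_lo_hi, if_true]
    congr 1
    refine Finset.prod_congr rfl fun b hb => ?_
    rw [Finset.mem_compl, Finset.mem_singleton] at hb
    rw [if_neg hb]
  have e2 : prodBilin γ (Function.update v (hi a) (J (v (hi a)))) =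
      γ a (v (lo a)) (J (v (hi a))) * ∏ b ∈ ({a} : Finset (Fin k))ᶜ,
        γ b (v (lo b)) (v (hi b)) := by
    show ∏ b, γ b (Function.update v (hi a) (J (v (hi a))) (lo b))
      (Function.update v (hi a) (J (v (hi a))) (hi b)) = _
    rw [Fintype.prod_eq_mul_prod_compl a]
    simp only [update_hi_hi, update_hi_lo, if_true]
    congr 1
    refine Finset.prod_congr rfl fun b hb => ?_
    rw [Finset.mem_compl, Finset.mem_singleton] at hb
    rw [if_neg hb]
  rw [e1, e2, ← add_mul, h, zero_mul]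

lemma wedge_killed {k : ℕ} (J : Module.End ℂ W) (γ : Fin k → (W →ₗ[ℂ] W →ₗ[ℂ] ℂ))
    (h : ∀ a u v, γ a (J u) v + γ a u (J v) = 0) (v : Fin (2 * k) → W) :
    ∑ r, wedge γ (Function.update v r (J (v r))) = 0 := by
  have h1 := actForm_alt J (prodBilin γ)
  rw [actForm_prodBilin_skew J γ h, map_zero] at h1
  have h2 := congrArg (fun g => g v) h1
  simp only [actForm_apply] at h2
  exact h2

lemma span_killed {k : ℕ} (J : Module.End ℂ W) (G : Set (W →ₗ[ℂ] W →ₗ[ℂ] ℂ))
    (hG : ∀ γ ∈ G, ∀ u v, γ (J u) v + γ u (J v) = 0) (α : W [⋀^Fin (2 * k)]→ₗ[ℂ] ℂ)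
    (hα : α ∈ Submodule.span ℂ {ω | ∃ γ : Fin k → (W →ₗ[ℂ] W →ₗ[ℂ] ℂ),
      (∀ a, γ a ∈ G) ∧ ω = wedge γ}) (v : Fin (2 * k) → W) :
    ∑ r, α (Function.update v r (J (v r))) = 0 := by
  induction hα using Submodule.span_induction with
  | mem ω h =>
    obtain ⟨γ, hγ, rfl⟩ := h
    exact wedge_killed J γ (fun a => hG _ (hγ a)) v
  | zero => simp
  | add a b _ _ ha hb =>
    simp only [AlternatingMap.add_apply, Finset.sum_add_distrib, ha, hb, add_zero]
  | smul c a _ ha =>
    simp only [AlternatingMap.smul_apply, smul_eq_mul, ← Finset.mul_sum, ha, mul_zero]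

end wedge

section family

variable {I : Type} [Fintype I] [DecidableEq I] (n : I → ℕ)
  {κ : I → Type} [∀ i, Fintype (κ i)] [∀ i, DecidableEq (κ i)] {ϖ : ℂ}
  (P : ∀ i, PData (κ i) ϖ)
  {K : I → Type} [∀ i, Field (K i)] [∀ i, NumberField (K i)] {r : I → ℕ}
  (F : ∀ i, UF (P i) (K i) (r i)) (x : ∀ i, K i)

/-- the diagonal operator given by elements of the fields -/
noncomputable def dgJ : Module.End ℂ (HW κ n) := lift n (fun i => (F i).ρ (x i))

lemma dgJ_apply (u : HW κ n) (i : I) (m : Fin (n i)) :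
    dgJ n P F x u i m = (F i).ρ (x i) (u i m) := rfl

lemma dgJ_slot (i : I) (m : Fin (n i)) (u : κ i → ℂ) :
    dgJ n P F x (slotL n i m u) = slotL n i m ((F i).ρ (x i) u) := lift_slot n _ i m u

lemma EE_dgJ (t : At n K) (u : HW κ n) :
    Helper24.EE n P F t (dgJ n P F x u) = t.2.2 (x t.1) • Helper24.EE n P F t u := by
  rw [Helper24.EE_apply, Helper24.EE_apply, ← map_smul]
  congr 1
  show proj (F t.1).ρ t.2.2 ((F t.1).ρ (x t.1) (u t.1 t.2.1)) =
    t.2.2 (x t.1) • proj (F t.1).ρ t.2.2 (u t.1 t.2.1)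
  rw [(F t.1).proj_rho]

lemma dgJ_EE (t : At n K) (u : HW κ n) :
    dgJ n P F x (Helper24.EE n P F t u) = t.2.2 (x t.1) • Helper24.EE n P F t u := by
  rw [Helper24.EE_apply, dgJ_slot, ← map_smul]
  congr 1
  show (F t.1).ρ (x t.1) (proj (F t.1).ρ t.2.2 (u t.1 t.2.1)) = _
  rw [← Module.End.mul_apply, rho_mul_proj, LinearMap.smul_apply]

/-- the derivation on the labelled components -/
lemma act_labels {k : ℕ} (α : (HW κ n) [⋀^Fin (2 * k)]→ₗ[ℂ] ℂ) (v : Fin (2 * k) → HW κ n) :
    ∑ s, α (Function.update v s (dgJ n P F x (v s))) =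
      ∑ t : Fin (2 * k) → At n K, (∑ s, (t s).2.2 (x (t s).1)) *
        α (fun s => Helper24.EE n P F (t s) (v s)) := by
  classical
  have h1 : ∀ s, α (Function.update v s (dgJ n P F x (v s))) =
      ∑ t : Fin (2 * k) → At n K,
        (t s).2.2 (x (t s).1) * α (fun s => Helper24.EE n P F (t s) (v s)) := by
    intro s
    have h2 := Helper24.sum_labels n P F α (Function.update v s (dgJ n P F x (v s)))
    rw [h2]
    refine Finset.sum_congr rfl fun t _ => ?_
    have h3 : (fun s' => Helper24.EE n P F (t s') (Function.update v s (dgJ n P F x (v s)) s')) =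
        Function.update (fun s' => Helper24.EE n P F (t s') (v s')) s
          ((t s).2.2 (x (t s).1) • Helper24.EE n P F (t s) (v s)) := by
      funext s'
      by_cases h : s' = s
      · subst h; rw [Function.update_self, Function.update_self, EE_dgJ]
      · rw [Function.update_of_ne h, Function.update_of_ne h]
    rw [h3, AlternatingMap.map_update_smul, smul_eq_mul]
    congr 2
    exact Function.update_eq_self s (fun s' => Helper24.EE n P F (t s') (v s'))
  rw [Finset.sum_congr rfl fun s _ => h1 s, Finset.sum_comm]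
  refine Finset.sum_congr rfl fun t _ => ?_
  rw [Finset.sum_mul]

/-- the forms `g ∈ GW` are skew for a central skew diagonal operator -/
lemma GW_skew (hHom : ∀ i j, i ≠ j → ∀ f, IsDRB (P i) (P j) f → f = 0)
    (hcom : ∀ i f, IsDRB (P i) (P i) f → ∀ u, f ((F i).ρ (x i) u) = (F i).ρ (x i) (f u))
    (hsk : ∀ i u v, (P i).ψ ((F i).ρ (x i) u) v = - (P i).ψ u ((F i).ρ (x i) v))
    (γ : HW κ n →ₗ[ℂ] HW κ n →ₗ[ℂ] ℂ) (hγ : γ ∈ GW n P) (u v : HW κ n) :
    γ (dgJ n P F x u) v + γ u (dgJ n P F x v) = 0 := by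
  obtain ⟨i, h, hh, rfl⟩ := hγ
  have key : ∀ u, h (dgJ n P F x u) = (F i).ρ (x i) (h u) := by
    intro u
    have e1 : ∀ j (m : Fin (n j)) (w : κ j → ℂ), h (dgJ n P F x (slotL n j m w)) =
        (F i).ρ (x i) (h (slotL n j m w)) := by
      intro j m w
      rw [dgJ_slot]
      have h1 := hh j m
      by_cases hij : j = i
      · subst hij
        exact hcom j _ h1 w
      · have h2 := hHom j i hij _ h1
        have h3 : ∀ w, h (slotL n j m w) = 0 := fun w => by
          have := congrArg (fun g => g w) h2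
          exact this
        rw [h3, h3, map_zero]
    conv_lhs => rw [← sum_slot n u]
    conv_rhs => rw [← sum_slot n u]
    simp only [map_sum, e1]
  rw [LinearMap.compl₁₂_apply, LinearMap.compl₁₂_apply, key, key, hsk]
  ring

end family

end Pool.Agent.Helper7
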