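import Pool.Agent.Helper7.AFD.Four
import Pool.Agent.Helper11.AF.Rigid

/-!
An imaginary quadratic field of endomorphisms of a simple abelian variety of dimension at least two
does not act by scalars on the Lie algebra.
-/

namespace Pool.Agent.GPC

open Module NumberField Pool.Agent.Helper7

theorem notScalarProp : NotScalarProp := by
  classical
  rintro X hs hg d hd J hJ hJJ hsk ⟨c, hc⟩
  obtain ⟨Jl, hJl⟩ : ∃ Jl : Module.End ℂ X.H1, ∀ v, Jl v = J v :=
    ⟨IsLinearMap.mk' _ hJ.linear, fun _ => rfl⟩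
  have hdC : (d : ℂ) ≠ 0 := by exact_mod_cast hd.ne'
  have hc0 : c ≠ 0 := by
    rintro rfl
    obtain ⟨w, hw⟩ : ∃ w : X.H1, w = Pi.single (.inr ⟨0, by omega⟩) 1 := ⟨_, rfl⟩
    have hwF : X.IsFil w := by
      intro b
      rw [hw]
      exact Pi.single_eq_of_ne (by simp) _
    have h1 := hc w hwF
    have h2 := hJJ w
    rw [h1, zero_smul, hJ.linear.map_zero] at h2
    rcases smul_eq_zero.mp h2.symm with h4 | h4
    · exact hdC (by linear_combination -h4)
    · have h5 := congrFun h4 (.inr ⟨0, by omega⟩)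
      rw [hw, Pi.single_eq_same] at h5
      exact one_ne_zero h5
  -- eigenvectors are in the filtration
  have hfil : ∀ v, J v = c • v → X.IsFil v := by
    intro v hv a
    obtain ⟨w, hw⟩ : ∃ w : X.H1, w = Pi.single (.inr a) 1 := ⟨_, rfl⟩
    have hwF : X.IsFil w := by
      intro b
      rw [hw]
      exact Pi.single_eq_of_ne (by simp) _
    have h1 : X.pol v w = v (.inl a) := by
      unfold AbVar.pol
      rw [Finset.sum_eq_single a]
      · rw [hw, Pi.single_eq_same,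
          Pi.single_eq_of_ne (by simp : (Sum.inl a : Fin X.g ⊕ Fin X.g) ≠ .inr a)]
        ring
      · intro b _ hb
        rw [hw, Pi.single_eq_of_ne (by simpa using hb), Pi.single_eq_of_ne (by simp)]
        ring
      · intro h
        exact absurd (Finset.mem_univ a) h
    have h2 := hsk v w
    rw [hv, hc w hwF] at h2
    have h5 : X.pol (c • v) w = c * X.pol v w := by
      rw [← pData_ψ, ← pData_ψ, map_smul, LinearMap.smul_apply, smul_eq_mul]
    have h6 : X.pol v (c • w) = c * X.pol v w := by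
      rw [← pData_ψ, ← pData_ψ, map_smul, smul_eq_mul]
    rw [h5, h6, h1] at h2
    have h7 : c * v (.inl a) = 0 := by linear_combination h2 / 2
    exact (mul_eq_zero.mp h7).resolve_left hc0
  -- an endomorphism of rank at most two
  have hι : Nonempty (pData X).ι := by
    have : Nonempty (Fin X.g ⊕ Fin X.g) := ⟨.inl ⟨0, by omega⟩⟩
    have : Nontrivial (Fin X.g ⊕ Fin X.g → ℂ) := inferInstance
    exact (pData X).bB.index_nonempty
  obtain ⟨p⟩ := hι
  obtain ⟨ℓ, hℓ⟩ : ∃ ℓ : X.H1 →ₗ[ℂ] ℂ, ℓ = (pData X).bB.coord p := ⟨_, rfl⟩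
  obtain ⟨w, hw⟩ : ∃ w : X.H1, w = (pData X).bB p := ⟨_, rfl⟩
  have hw0 : w ≠ 0 := by rw [hw]; exact (pData X).bB.ne_zero p
  have hwB : w ∈ (pData X).Q := by rw [hw]; exact (pData X).basis_mem p
  have hJwB : J w ∈ (pData X).Q := (mem_pData_Q _ _).mpr (hJ.betti _ ((mem_pData_Q _ _).mp hwB))
  have hrat : ∀ v, X.IsBetti v → ∃ r : ℚ, ℓ v = r := by
    intro v hv
    rw [hℓ]
    exact (pData X).repr_rat _ ((mem_pData_Q _ _).mpr hv) p
  obtain ⟨f, hfa⟩ : ∃ f : X.H1 →ₗ[ℂ] X.H1, ∀ v, f v = ℓ v • w - ((d : ℂ)⁻¹ * ℓ (J v)) • J w := by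
    refine ⟨ℓ.smulRight w - ((d : ℂ)⁻¹) • (ℓ ∘ₗ Jl).smulRight (J w), fun v => ?_⟩
    show ℓ v • w - (d : ℂ)⁻¹ • (ℓ (Jl v) • J w) = _
    rw [smul_smul, hJl]
  have hfb : ∀ v, X.IsBetti v → X.IsBetti (f v) := by
    intro v hv
    rw [← mem_pData_Q, hfa]
    obtain ⟨r, hr⟩ := hrat v hv
    obtain ⟨s, hs⟩ := hrat _ (hJ.betti _ hv)
    rw [hr, hs]
    refine Submodule.sub_mem _ ((pData X).rat_smul_mem _ _ hwB) ?_
    have h1 : (d : ℂ)⁻¹ * (s : ℂ) = ((d⁻¹ * s : ℚ) : ℂ) := by push_cast; rfl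
    rw [h1]
    exact (pData X).rat_smul_mem _ _ hJwB
  have hfJ : ∀ v, f (J v) = J (f v) := by
    intro v
    rw [← hJl (f v), hfa, hfa, map_sub, map_smul, map_smul, hJl, hJl, hJJ, hJJ, map_smul,
      smul_eq_mul, smul_smul]
    have e1 : (d : ℂ)⁻¹ * (-(d : ℂ) * ℓ v) = - ℓ v := by field_simp
    have e2 : (d : ℂ)⁻¹ * ℓ (J v) * -(d : ℂ) = - ℓ (J v) := by field_simp
    rw [e1, e2, neg_smul, neg_smul, sub_neg_eq_add, sub_neg_eq_add, add_comm]
  have hfF : ∀ v, X.IsFil v → X.IsFil (f v) := by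
    intro v hv
    apply hfil
    rw [← hfJ, hc v hv, map_smul]
  have hfE : X.IsEnd f := ⟨f.isLinear, hfb, deRham_of_hodge X X f f.isLinear hfb hfF,
    hfF⟩
  have hf0 : ∃ v, f v ≠ 0 := by
    refine ⟨w, fun h0 => hw0 ?_⟩
    obtain ⟨s, hs⟩ := hrat _ (hJ.betti _ ((mem_pData_Q _ _).mp hwB))
    have h1 : ℓ w = 1 := by
      rw [hℓ, hw, Basis.coord_apply, Basis.repr_self, Finsupp.single_eq_same]
    rw [hfa, h1, hs, one_smul, sub_eq_zero] at h0
    have h3 : J w = ((d : ℂ)⁻¹ * s * -(d : ℂ)) • w := by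
      conv_lhs => rw [h0]
      rw [hJ.linear.map_smul, hJJ, smul_smul]
    rw [h3, smul_smul] at h0
    have h5 : (1 - ((d : ℂ)⁻¹ * s) * ((d : ℂ)⁻¹ * s * -(d : ℂ))) • w = 0 := by
      rw [sub_smul, one_smul, ← h0, sub_self]
    rcases smul_eq_zero.mp h5 with h6 | h6
    · exfalso
      have h7 : (((1 + s * s / d : ℚ)) : ℂ) = 0 := by
        rw [← h6]
        push_cast
        field_simp
        ring
      have h8 : (1 + s * s / d : ℚ) = 0 := by exact_mod_cast h7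
      have h9 : 0 ≤ s * s / d := div_nonneg (mul_self_nonneg s) hd.le
      linarith
    · exact h6
  have hinj := hs f hfE hf0
  let g : X.H1 →ₗ[ℂ] (Fin 2 → ℂ) := LinearMap.pi ![ℓ, ℓ ∘ₗ Jl]
  have h1 : LinearMap.ker g ≠ ⊥ := by
    apply LinearMap.ker_ne_bot_of_finrank_lt
    rw [Module.finrank_fintype_fun_eq_card, Module.finrank_fintype_fun_eq_card]
    simp only [Fintype.card_fin, Fintype.card_sum]
    omega
  obtain ⟨v, hv1, hv2⟩ := Submodule.exists_mem_ne_zero_of_ne_bot h1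
  rw [LinearMap.mem_ker] at hv1
  have h2 : ℓ v = 0 := congrFun hv1 0
  have h3 : ℓ (Jl v) = 0 := congrFun hv1 1
  apply hv2
  apply hinj
  rw [map_zero, hfa, h2, ← hJl v, h3, mul_zero, zero_smul, zero_smul, sub_zero]

theorem three_one_dich {I : Type} [Fintype I] (A : I → AbVar) (n : I → ℕ)
    (hs : ∀ i, (A i).IsSimple)
    (hA : ∀ i j, i ≠ j → ∀ f, (A i).IsMor (A j) f → ∀ v, f v = 0)
    (p e : I) (hI : ∀ j, j = p ∨ j = e) (hn : ∀ i, n i = 1)
    (hp : (A p).g = 3) (he : (A e).g = 1) (d : ℚ) (hqp : (A p).IsQuadEnd d)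
    (hqe : (A e).IsQuadEnd d) (k : ℕ)
    (α : Form A n (2 * k)) (hα : IsGrothendieck A n k α) :
    ∃ J : H1 A n → H1 A n, IsWeilStructure A n d J ∧
      ((∀ v, ∑ r, α (Function.update v r (J (v r))) = 0) ∨
       (k = 2 ∧ ∃ (z : ℂ) (v : Fin (2 * k) → H1 A n), z ^ 2 = -(d : ℂ) ∧
         (∀ r, J (v r) = z • v r) ∧ α v ≠ 0)) :=
  three_one_dich0 notScalarProp A n hs hA p e hI hn hp he d hqp hqe k α hα

theorem four_dich {I : Type} [Fintype I] (A : I → AbVar) (n : I → ℕ)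
    (hs : ∀ i, (A i).IsSimple)
    (i : I) (hI : ∀ j, j = i) (hn : ∀ i, n i = 1)
    (hi : (A i).g = 4) (d : ℚ) (hq : (A i).IsQuadEnd d) :
    (∃ J : H1 A n → H1 A n, IsWeilStructure A n d J ∧
      ∀ (k : ℕ) (α : Form A n (2 * k)), IsGrothendieck A n k α →
        ∀ v, ∑ r, α (Function.update v r (J (v r))) = 0) ∨
    ∃ w : Form A n (2 * 2), w ≠ 0 ∧ IsWeilClass A n 2 w ∧ IsGrothendieck A n 2 w :=
  four_dich0 notScalarProp A n hs i hI hn hi d hq

end Pool.Agent.GPC
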