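import Pool.Agent.Helper7.AF.Q31a
import Pool.Agent.Helper7.AFD.Kill

/-!
Threefold times elliptic curve with the same imaginary quadratic field: numbers of slots and the
relation between the weights.
-/

namespace Pool.Agent.Helper7

open Module NumberField LieAlgebra Pool.Agent.Helper24

attribute [local instance 100] LieRing.ofAssociativeRing

open Pool.Agent.GPC (Emb IsOdd IsOddModule translate)
open Pool.Agent.Helper8 (SF SF0 PS symG invF invF_symG SF.toSF0 SF.factor SF.mem_of_factor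
  mem_of_PS)

set_option linter.unusedSectionVars false

section family

variable {I : Type} [Fintype I] [DecidableEq I] (n : I → ℕ)
  {κ : I → Type} [∀ i, Fintype (κ i)] [∀ i, DecidableEq (κ i)] {ϖ : ℂ}
  (P : ∀ i, PData (κ i) ϖ)
  {K : I → Type} [∀ i, Field (K i)] [∀ i, NumberField (K i)] {r : I → ℕ}
  (F : ∀ i, UF (P i) (K i) (r i))
  {l : ℕ} (M : MultilinearMap ℂ (fun _ : Fin (2 * l) => HW κ n) ℂ)

variable {p e : I} (hI : ∀ j, j = p ∨ j = e) (hnp : n p = 1) (hne : n e = 1)
  (σ : K p →+* ℂ) (τ : K e →+* ℂ)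
  (hσ : ∀ σ', σ' = σ ∨ σ' = ComplexEmbedding.conjugate σ)
  (hτ : ∀ τ', τ' = τ ∨ τ' = ComplexEmbedding.conjugate τ)
  (hpe : p ≠ e) (hrp : r p = 3) (hre : r e = 1)
  (hσ' : ComplexEmbedding.conjugate σ ≠ σ) (hτ' : ComplexEmbedding.conjugate τ ≠ τ)

/-- the slots with a given label -/
def sl {k : ℕ} (a : Fin (2 * k) → At n K) (t : At n K) [DecidableEq (At n K)] :
    Finset (Fin (2 * k)) := Finset.univ.filter (fun s => a s = t)

include hI hpe hrp hre hσ hτ hσ' hτ' in
theorem lab31 [DecidableEq (At n K)] (hr : ∀ i, 0 < r i) (hk : IsKilling ℂ (Helper24.LL n P F M))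
    (hirr : ∀ s, LieModule.IsIrreducible ℂ (Helper24.LL n P F M) (Helper24.Vs n P F M s))
    {k : ℕ} (a : Fin (2 * k) → At n K) (Φ : (Fin (2 * k) → HW κ n) → ℂ)
    (h : SF (symG n P M) (Helper24.EE n P F) a Finset.univ Φ) (v : Fin (2 * k) → HW κ n)
    (hv : Φ v ≠ 0) :
    ((sl n a (at1 n hnp σ)).card ≤ 3 ∧
      (sl n a (at1 n hnp (ComplexEmbedding.conjugate σ))).card ≤ 3 ∧
      (sl n a (at1 n hne τ)).card ≤ 1 ∧
      (sl n a (at1 n hne (ComplexEmbedding.conjugate τ))).card ≤ 1 ∧
      (sl n a (at1 n hnp σ)).card + (sl n a (at1 n hnp (ComplexEmbedding.conjugate σ))).card +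
      ((sl n a (at1 n hne τ)).card + (sl n a (at1 n hne (ComplexEmbedding.conjugate τ))).card) =
        2 * k) ∧
    (∀ X, IsInv n P M X → (((sl n a (at1 n hnp σ)).card : ℂ) -
      (sl n a (at1 n hnp (ComplexEmbedding.conjugate σ))).card) * (ch P F ⟨p, σ⟩ X -
      ch P F ⟨p, ComplexEmbedding.conjugate σ⟩ X) + (((sl n a (at1 n hne τ)).card : ℂ) -
      (sl n a (at1 n hne (ComplexEmbedding.conjugate τ))).card) *
      (ch P F ⟨e, τ⟩ X - ch P F ⟨e, ComplexEmbedding.conjugate τ⟩ X) = 0) ∧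
    ((sl n a (at1 n hne τ)).card = (sl n a (at1 n hne (ComplexEmbedding.conjugate τ))).card →
      Φ ∈ PS (invB n P M) Finset.univ) ∧
    (∀ x : ∀ i, K i, ∑ s, (a s).2.2 (x (a s).1) = (sl n a (at1 n hnp σ)).card * σ (x p) +
      (sl n a (at1 n hnp (ComplexEmbedding.conjugate σ))).card *
        ComplexEmbedding.conjugate σ (x p) +
      ((sl n a (at1 n hne τ)).card * τ (x e) +
      (sl n a (at1 n hne (ComplexEmbedding.conjugate τ))).card *
        ComplexEmbedding.conjugate τ (x e))) := by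
  obtain ⟨A, hA⟩ : ∃ A, A = sl n a (at1 n hnp σ) := ⟨_, rfl⟩
  obtain ⟨B, hB⟩ : ∃ B, B = sl n a (at1 n hnp (ComplexEmbedding.conjugate σ)) := ⟨_, rfl⟩
  obtain ⟨C, hC⟩ : ∃ C, C = sl n a (at1 n hne τ) := ⟨_, rfl⟩
  obtain ⟨D, hD⟩ : ∃ D, D = sl n a (at1 n hne (ComplexEmbedding.conjugate τ)) := ⟨_, rfl⟩
  have mA : ∀ s, s ∈ A ↔ a s = at1 n hnp σ := fun s => by rw [hA, sl]; simp
  have mB : ∀ s, s ∈ B ↔ a s = at1 n hnp (ComplexEmbedding.conjugate σ) := fun s => by
    rw [hB, sl]; simp
  have mC : ∀ s, s ∈ C ↔ a s = at1 n hne τ := fun s => by rw [hC, sl]; simp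
  have mD : ∀ s, s ∈ D ↔ a s = at1 n hne (ComplexEmbedding.conjugate τ) := fun s => by
    rw [hD, sl]; simp
  rw [← hA, ← hB, ← hC, ← hD]
  have cases4 := fun s => atoms31 n hI hnp hne σ τ hσ hτ (a s)
  -- at most three slots, at most one slot
  have cA : A.card ≤ 3 := by
    by_contra hc
    exact hv (alt_many n P F h.toSF0 (i := p) (m := ⟨0, by omega⟩) (σ := σ) A
      (Finset.subset_univ A) (fun t ht => (mA t).mp ht) (by rw [hrp]; omega) v)
  have cB : B.card ≤ 3 := by
    by_contra hc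
    exact hv (alt_many n P F h.toSF0 (i := p) (m := ⟨0, by omega⟩)
      (σ := ComplexEmbedding.conjugate σ) B
      (Finset.subset_univ B) (fun t ht => (mB t).mp ht) (by rw [hrp]; omega) v)
  have cC : C.card ≤ 1 := by
    by_contra hc
    exact hv (alt_many n P F h.toSF0 (i := e) (m := ⟨0, by omega⟩) (σ := τ) C
      (Finset.subset_univ C) (fun t ht => (mC t).mp ht) (by rw [hre]; omega) v)
  have cD : D.card ≤ 1 := by
    by_contra hc
    exact hv (alt_many n P F h.toSF0 (i := e) (m := ⟨0, by omega⟩)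
      (σ := ComplexEmbedding.conjugate τ) D
      (Finset.subset_univ D) (fun t ht => (mD t).mp ht) (by rw [hre]; omega) v)
  -- disjointness
  have n1 : at1 n hnp σ ≠ at1 n hnp (ComplexEmbedding.conjugate σ) := at1_ne n hnp (Ne.symm hσ')
  have n2 : at1 n hne τ ≠ at1 n hne (ComplexEmbedding.conjugate τ) := at1_ne n hne (Ne.symm hτ')
  have n3 := fun σ τ => at1_ne' n (K := K) hnp hne hpe σ τ
  have hU : (Finset.univ : Finset (Fin (2 * k))) = (A ∪ B) ∪ (C ∪ D) := by
    ext s
    simp only [Finset.mem_univ, Finset.mem_union, true_iff, mA, mB, mC, mD]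
    rcases cases4 s with h' | h' | h' | h' <;> simp [h']
  have dAB : Disjoint A B := by
    rw [Finset.disjoint_left]
    intro s h1 h2
    exact n1 (((mA s).mp h1).symm.trans ((mB s).mp h2))
  have dCD : Disjoint C D := by
    rw [Finset.disjoint_left]
    intro s h1 h2
    exact n2 (((mC s).mp h1).symm.trans ((mD s).mp h2))
  have dd' : Disjoint (A ∪ B) (C ∪ D) := by
    rw [Finset.disjoint_left]
    intro s h1 h2
    rw [Finset.mem_union, mA, mB] at h1
    rw [Finset.mem_union, mC, mD] at h2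
    rcases h1 with h1 | h1 <;> rcases h2 with h2 | h2 <;> exact n3 _ _ (h1.symm.trans h2)
  have hcard : A.card + B.card + (C.card + D.card) = 2 * k := by
    rw [← Finset.card_union_of_disjoint dAB, ← Finset.card_union_of_disjoint dCD,
      ← Finset.card_union_of_disjoint dd', ← hU, Finset.card_univ, Fintype.card_fin]
  -- the relation
  have hw : ∀ X, IsInv n P M X → ((A.card : ℂ) - B.card) * (ch P F ⟨p, σ⟩ X -
      ch P F ⟨p, ComplexEmbedding.conjugate σ⟩ X) + ((C.card : ℂ) - D.card) *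
      (ch P F ⟨e, τ⟩ X - ch P F ⟨e, ComplexEmbedding.conjugate τ⟩ X) = 0 := by
    intro X hX
    have h1 := Helper24.weight_sum n P F M hk h v hv X hX
    have h2 : ∑ s, ch P F (pl n (a s)) X = A.card * ch P F ⟨p, σ⟩ X +
        B.card * ch P F ⟨p, ComplexEmbedding.conjugate σ⟩ X +
        (C.card * ch P F ⟨e, τ⟩ X + D.card * ch P F ⟨e, ComplexEmbedding.conjugate τ⟩ X) := by
      rw [hU, Finset.sum_union dd', Finset.sum_union dAB, Finset.sum_union dCD]
      rw [Finset.sum_congr rfl (fun s hs => by rw [(mA s).mp hs]; rfl :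
          ∀ s ∈ A, ch P F (pl n (a s)) X = ch P F ⟨p, σ⟩ X),
        Finset.sum_congr rfl (fun s hs => by rw [(mB s).mp hs]; rfl :
          ∀ s ∈ B, ch P F (pl n (a s)) X =
            ch P F ⟨p, ComplexEmbedding.conjugate σ⟩ X),
        Finset.sum_congr rfl (fun s hs => by rw [(mC s).mp hs]; rfl :
          ∀ s ∈ C, ch P F (pl n (a s)) X = ch P F ⟨e, τ⟩ X),
        Finset.sum_congr rfl (fun s hs => by rw [(mD s).mp hs]; rfl :
          ∀ s ∈ D, ch P F (pl n (a s)) X =
            ch P F ⟨e, ComplexEmbedding.conjugate τ⟩ X)]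
      simp only [Finset.sum_const, nsmul_eq_mul]
    have hcc : ((2 * k : ℕ) : ℂ) = A.card + B.card + (C.card + D.card) := by
      exact_mod_cast hcard.symm
    rw [h2, Finset.card_univ, Fintype.card_fin, hcc] at h1
    have h3 : ch P F ⟨p, σ⟩ X + ch P F ⟨p, ComplexEmbedding.conjugate σ⟩ X = X.2 :=
      Helper24.ch_conj n P F M hr ⟨p, σ⟩ X hX
    have h4 : ch P F ⟨e, τ⟩ X + ch P F ⟨e, ComplexEmbedding.conjugate τ⟩ X = X.2 :=
      Helper24.ch_conj n P F M hr ⟨e, τ⟩ X hX
    linear_combination h1 - (A.card + B.card : ℂ) * h3 - (C.card + D.card : ℂ) * h4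
  refine ⟨⟨cA, cB, cC, cD, hcard⟩, hw, fun hCD => ?_, fun x => ?_⟩
  · rcases Nat.le_one_iff_eq_zero_or_eq_one.mp cC with c0 | c1
    · -- no slots at the elliptic curve
      have d0 : D.card = 0 := by omega
      refine core_p n P F M hr hk hirr hrp ⟨0, by omega⟩ σ hσ'
        (by rw [Finset.card_univ, Fintype.card_fin]; exact even_two_mul _) h (fun s _ => ?_)
      rw [Finset.card_eq_zero] at c0 d0
      rcases cases4 s with h' | h' | h' | h'
      · exact Or.inl h'
      · exact Or.inr h'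
      · exact absurd ((mC s).mpr h') (by rw [c0]; exact Finset.notMem_empty s)
      · exact absurd ((mD s).mpr h') (by rw [d0]; exact Finset.notMem_empty s)
    · -- two slots at the elliptic curve
      have d1 : D.card = 1 := by omega
      obtain ⟨r0, hr0⟩ := Finset.card_eq_one.mp c1
      obtain ⟨s0, hs0⟩ := Finset.card_eq_one.mp d1
      have q1 : a r0 = at1 n hne τ := (mC r0).mp (by rw [hr0]; exact Finset.mem_singleton_self _)
      have q2 : a s0 = at1 n hne (ComplexEmbedding.conjugate τ) :=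
        (mD s0).mp (by rw [hs0]; exact Finset.mem_singleton_self _)
      have hrs : r0 ≠ s0 := by
        rintro rfl
        exact n2 (q1.symm.trans q2)
      refine cm_step n P F M h (Finset.mem_univ r0) (Finset.mem_univ s0) hrs hre
        (m := ⟨0, by omega⟩) (m' := ⟨0, by omega⟩) (σ := τ) q1 q2 (fun Ψ hΨ => ?_)
      refine core_p n P F M hr hk hirr hrp ⟨0, by omega⟩ σ hσ' ?_ hΨ (fun s hs => ?_)
      · rw [Finset.card_sdiff_of_subset (Finset.subset_univ _), Finset.card_pair hrs,
          Finset.card_univ, Fintype.card_fin]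
        have : 2 * k - 2 = 2 * (k - 1) := by omega
        rw [this]
        exact even_two_mul _
      · rw [Finset.mem_sdiff, Finset.mem_insert, Finset.mem_singleton, not_or] at hs
        rcases cases4 s with h' | h' | h' | h'
        · exact Or.inl h'
        · exact Or.inr h'
        · have := (mC s).mpr h'
          rw [hr0, Finset.mem_singleton] at this
          exact absurd this hs.2.1
        · have := (mD s).mpr h'
          rw [hs0, Finset.mem_singleton] at this
          exact absurd this hs.2.2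
  · rw [hU, Finset.sum_union dd', Finset.sum_union dAB, Finset.sum_union dCD]
    rw [Finset.sum_congr rfl (fun s hs => by rw [(mA s).mp hs]; rfl :
        ∀ s ∈ A, (a s).2.2 (x (a s).1) = σ (x p)),
      Finset.sum_congr rfl (fun s hs => by rw [(mB s).mp hs]; rfl :
        ∀ s ∈ B, (a s).2.2 (x (a s).1) = ComplexEmbedding.conjugate σ (x p)),
      Finset.sum_congr rfl (fun s hs => by rw [(mC s).mp hs]; rfl :
        ∀ s ∈ C, (a s).2.2 (x (a s).1) = τ (x e)),
      Finset.sum_congr rfl (fun s hs => by rw [(mD s).mp hs]; rfl :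
        ∀ s ∈ D, (a s).2.2 (x (a s).1) = ComplexEmbedding.conjugate τ (x e))]
    simp only [Finset.sum_const, nsmul_eq_mul]

end family

end Pool.Agent.Helper7
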