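import Pool.Agent.Helper7.AF.Q31c
import Pool.Agent.Helper7.AFD.Lab

/-!
Threefold times elliptic curve with the same imaginary quadratic field: the core of the dichotomy.
-/

namespace Pool.Agent.Helper7

open Module NumberField LieAlgebra Pool.Agent.Helper24

attribute [local instance 100] LieRing.ofAssociativeRing

open Pool.Agent.GPC (Emb IsOdd IsOddModule translate)
open Pool.Agent.Helper8 (SF SF0 PS symG invF invF_symG SF.toSF0 SF.factor SF.mem_of_factor
  mem_of_PS)

set_option linter.unusedSectionVars false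

section family

variable {I : Type} [Fintype I] [DecidableEq I] (n : I → ℕ)
  {κ : I → Type} [∀ i, Fintype (κ i)] [∀ i, DecidableEq (κ i)] {ϖ : ℂ}
  (P : ∀ i, PData (κ i) ϖ)
  {K : I → Type} [∀ i, Field (K i)] [∀ i, NumberField (K i)] {r : I → ℕ}
  (F : ∀ i, UF (P i) (K i) (r i))

variable {p e : I} (hI : ∀ j, j = p ∨ j = e) (hnp : n p = 1) (hne : n e = 1)
  (σ : K p →+* ℂ) (τ : K e →+* ℂ)
  (hσ : ∀ σ', σ' = σ ∨ σ' = ComplexEmbedding.conjugate σ)
  (hτ : ∀ τ', τ' = τ ∨ τ' = ComplexEmbedding.conjugate τ)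
  (hpe : p ≠ e) (hrp : r p = 3) (hre : r e = 1)
  (hσ' : ComplexEmbedding.conjugate σ ≠ σ) (hτ' : ComplexEmbedding.conjugate τ ≠ τ)
  {z : ℂ} (x1 x2 : ∀ i, K i)
  (h1p : σ (x1 p) = z) (h1p' : ComplexEmbedding.conjugate σ (x1 p) = -z)
  (h1e : τ (x1 e) = z) (h1e' : ComplexEmbedding.conjugate τ (x1 e) = -z)
  (h2p : σ (x2 p) = z) (h2p' : ComplexEmbedding.conjugate σ (x2 p) = -z)
  (h2e : τ (x2 e) = -z) (h2e' : ComplexEmbedding.conjugate τ (x2 e) = z)
  (hϖ : ϖ ≠ 0)
  (hT : ∀ v ∈ (P e).Q, v ≠ 0 →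
      ¬ ∃ (w : ℂ) (u : κ e → ℂ), (∀ j, IsAlgebraic ℚ (u j)) ∧ v = w • u)
  (hsk : ∀ γ ∈ GW n P, ∀ u v, γ (dgJ n P F x1 u) v + γ u (dgJ n P F x1 v) = 0)
  {k : ℕ} (α : (HW κ n) [⋀^Fin (2 * k)]→ₗ[ℂ] ℂ)
  (hB : ∀ v : Fin (2 * k) → HW κ n, (∀ r, IsRatP n P (v r)) → ∃ q : ℚ, α v = ϖ ^ k * q)
  (hA : ∀ v : Fin (2 * k) → HW κ n, (∀ r i m j, IsAlgebraic ℚ (v r i m j)) →
      IsAlgebraic ℚ (α v))

include hI hnp hne hpe hrp hre hσ hτ hσ' hτ' h1p h1p' h1e h1e' h2p h2p' h2e h2e' hϖ hT hsk hB hA in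
theorem q31d_core : (∀ v, ∑ s, α (Function.update v s (dgJ n P F x1 (v s))) = 0) ∨
    (∀ v, ∑ s, α (Function.update v s (dgJ n P F x2 (v s))) = 0) ∨
    (k = 2 ∧ ∃ (z' : ℂ) (v : Fin (2 * k) → HW κ n), z' ^ 2 = z ^ 2 ∧
      (∀ s, dgJ n P F x1 (v s) = z' • v s) ∧ α v ≠ 0) ∨
    (k = 2 ∧ ∃ (z' : ℂ) (v : Fin (2 * k) → HW κ n), z' ^ 2 = z ^ 2 ∧
      (∀ s, dgJ n P F x2 (v s) = z' • v s) ∧ α v ≠ 0) := by
  classical
  have hr : ∀ i, 0 < r i := by
    intro i
    rcases hI i with rfl | rfl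
    · omega
    · omega
  obtain ⟨M, hM⟩ : ∃ M, M = (α : MultilinearMap ℂ (fun _ : Fin (2 * k) => HW κ n) ℂ) := ⟨_, rfl⟩
  have hBM : ∀ v : Fin (2 * k) → HW κ n, (∀ r, IsRatP n P (v r)) →
      ∃ q : ℚ, M v = ϖ ^ k * q := by
    rw [hM]; exact hB
  have hAM : ∀ v : Fin (2 * k) → HW κ n, (∀ r i m j, IsAlgebraic ℚ (v r i m j)) →
      IsAlgebraic ℚ (M v) := by
    rw [hM]; exact hA
  have hirr : ∀ s, LieModule.IsIrreducible ℂ (Helper24.LL n P F M) (Helper24.Vs n P F M s) :=
    fun s => Helper24.Vs_irr n P F M hϖ hBM hAM s (hr s.1)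
  have htr := Helper24.LL_trivialRadical n P F M hϖ hBM hAM hr
  have hk : IsKilling ℂ (Helper24.LL n P F M) := inferInstance
  obtain ⟨X0, hX0, hy0⟩ := exists_weight n P F M hϖ hBM hAM hr e hre hT τ hτ
  have hSF : ∀ t : Fin (2 * k) → At n K, SF (symG n P M) (Helper24.EE n P F) t Finset.univ
      (fun v => α (fun r => Helper24.EE n P F (t r) (v r))) := by
    rw [hM]
    exact Helper24.SF_label n P F α
  have hlab := fun (t : Fin (2 * k) → At n K) (v : Fin (2 * k) → HW κ n)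
      (hv : α (fun r => Helper24.EE n P F (t r) (v r)) ≠ 0) =>
    lab31 n P F M hI hnp hne σ τ hσ hτ hpe hrp hre hσ' hτ' hr hk hirr t _ (hSF t) v hv
  -- numbers of slots
  obtain ⟨nA, hnA⟩ : ∃ nA : (Fin (2 * k) → At n K) → ℕ,
    ∀ t, nA t = (sl n t (at1 n hnp σ)).card := ⟨_, fun _ => rfl⟩
  obtain ⟨nB, hnB⟩ : ∃ nB : (Fin (2 * k) → At n K) → ℕ,
    ∀ t, nB t = (sl n t (at1 n hnp (ComplexEmbedding.conjugate σ))).card := ⟨_, fun _ => rfl⟩
  obtain ⟨nC, hnC⟩ : ∃ nC : (Fin (2 * k) → At n K) → ℕ,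
    ∀ t, nC t = (sl n t (at1 n hne τ)).card := ⟨_, fun _ => rfl⟩
  obtain ⟨nD, hnD⟩ : ∃ nD : (Fin (2 * k) → At n K) → ℕ,
    ∀ t, nD t = (sl n t (at1 n hne (ComplexEmbedding.conjugate τ))).card := ⟨_, fun _ => rfl⟩
  simp only [← hnA, ← hnB, ← hnC, ← hnD] at hlab
  -- the eigenvalues
  have hev1 : ∀ (t : Fin (2 * k) → At n K) (v : Fin (2 * k) → HW κ n),
      α (fun r => Helper24.EE n P F (t r) (v r)) ≠ 0 →
      ∑ s, (t s).2.2 (x1 (t s).1) = (((nA t : ℂ) - nB t) + ((nC t : ℂ) - nD t)) * z := by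
    intro t v hv
    rw [(hlab t v hv).2.2.2 x1, h1p, h1p', h1e, h1e']
    ring
  have hev2 : ∀ (t : Fin (2 * k) → At n K) (v : Fin (2 * k) → HW κ n),
      α (fun r => Helper24.EE n P F (t r) (v r)) ≠ 0 →
      ∑ s, (t s).2.2 (x2 (t s).1) = (((nA t : ℂ) - nB t) - ((nC t : ℂ) - nD t)) * z := by
    intro t v hv
    rw [(hlab t v hv).2.2.2 x2, h2p, h2p', h2e, h2e']
    ring
  by_cases hcase : ∃ (t : Fin (2 * k) → At n K) (v : Fin (2 * k) → HW κ n),
      α (fun r => Helper24.EE n P F (t r) (v r)) ≠ 0 ∧ nC t ≠ nD t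
  · obtain ⟨t0, v0, hv0, hCD⟩ := hcase
    obtain ⟨⟨ca, cb, cc, cd, hcard⟩, hw, -, -⟩ := hlab t0 v0 hv0
    -- all other labels
    have hcross : ∀ (t : Fin (2 * k) → At n K) (v : Fin (2 * k) → HW κ n),
      α (fun r => Helper24.EE n P F (t r) (v r)) ≠ 0 →
        ((nA t : ℤ) - nB t) * (nC t0 - nD t0) = ((nA t0 : ℤ) - nB t0) * (nC t - nD t) := by
      intro t v hv
      have e1 := (hlab t v hv).2.1 X0 hX0
      have e2 := hw X0 hX0
      have e3 : ch P F ⟨e, τ⟩ X0 - ch P F ⟨e, ComplexEmbedding.conjugate τ⟩ X0 ≠ 0 :=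
        sub_ne_zero.mpr hy0
      have e4 : ch P F ⟨p, σ⟩ X0 - ch P F ⟨p, ComplexEmbedding.conjugate σ⟩ X0 ≠ 0 := by
        intro h0
        rw [h0, mul_zero, zero_add] at e2
        have e5 := (mul_eq_zero.mp e2).resolve_right e3
        apply hCD
        have e6 : (nC t0 : ℂ) = nD t0 := sub_eq_zero.mp e5
        exact_mod_cast e6
      have e5 : ((nA t : ℂ) - nB t) * (nC t0 - nD t0) = ((nA t0 : ℂ) - nB t0) * (nC t - nD t) := by
        apply mul_right_cancel₀ e4
        linear_combination ((nC t0 : ℂ) - nD t0) * e1 - ((nC t : ℂ) - nD t) * e2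
      exact_mod_cast e5
    have hcd : (nC t0 = 1 ∧ nD t0 = 0) ∨ (nC t0 = 0 ∧ nD t0 = 1) := by omega
    by_cases h3 : (nA t0 = 3 ∧ nB t0 = 0) ∨ (nA t0 = 0 ∧ nB t0 = 3)
    · -- a component on one eigenspace
      right; right
      have hk2 : k = 2 := by omega
      have atc := fun s => atoms31 n hI hnp hne σ τ hσ hτ (t0 s)
      have nmA : nA t0 = 0 → ∀ s, t0 s ≠ at1 n hnp σ := by
        intro h0 s hs
        rw [hnA, Finset.card_eq_zero] at h0
        have : s ∈ sl n t0 (at1 n hnp σ) := by rw [sl]; simp [hs]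
        rw [h0] at this
        exact Finset.notMem_empty s this
      have nmB : nB t0 = 0 → ∀ s, t0 s ≠ at1 n hnp (ComplexEmbedding.conjugate σ) := by
        intro h0 s hs
        rw [hnB, Finset.card_eq_zero] at h0
        have : s ∈ sl n t0 (at1 n hnp (ComplexEmbedding.conjugate σ)) := by rw [sl]; simp [hs]
        rw [h0] at this
        exact Finset.notMem_empty s this
      have nmC : nC t0 = 0 → ∀ s, t0 s ≠ at1 n hne τ := by
        intro h0 s hs
        rw [hnC, Finset.card_eq_zero] at h0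
        have : s ∈ sl n t0 (at1 n hne τ) := by rw [sl]; simp [hs]
        rw [h0] at this
        exact Finset.notMem_empty s this
      have nmD : nD t0 = 0 → ∀ s, t0 s ≠ at1 n hne (ComplexEmbedding.conjugate τ) := by
        intro h0 s hs
        rw [hnD, Finset.card_eq_zero] at h0
        have : s ∈ sl n t0 (at1 n hne (ComplexEmbedding.conjugate τ)) := by rw [sl]; simp [hs]
        rw [h0] at this
        exact Finset.notMem_empty s this
      have fin : ∀ (x : ∀ i, K i) (z' : ℂ), (∀ s, (t0 s).2.2 (x (t0 s).1) = z') →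
          ∀ s, dgJ n P F x (Helper24.EE n P F (t0 s) (v0 s)) =
            z' • Helper24.EE n P F (t0 s) (v0 s) := by
        intro x z' h s
        rw [dgJ_EE, h s]
      rcases h3 with ⟨ha, hb⟩ | ⟨ha, hb⟩ <;> rcases hcd with ⟨hc, hd⟩ | ⟨hc, hd⟩
      · left
        refine ⟨hk2, z, fun s => Helper24.EE n P F (t0 s) (v0 s), rfl, fin x1 z fun s => ?_, hv0⟩
        rcases atc s with h | h | h | h
        · rw [h]; exact h1p
        · exact absurd h (nmB hb s)
        · rw [h]; exact h1e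
        · exact absurd h (nmD hd s)
      · right
        refine ⟨hk2, z, fun s => Helper24.EE n P F (t0 s) (v0 s), rfl, fin x2 z fun s => ?_, hv0⟩
        rcases atc s with h | h | h | h
        · rw [h]; exact h2p
        · exact absurd h (nmB hb s)
        · exact absurd h (nmC hc s)
        · rw [h]; exact h2e'
      · right
        refine ⟨hk2, -z, fun s => Helper24.EE n P F (t0 s) (v0 s), by ring,
          fin x2 (-z) fun s => ?_, hv0⟩
        rcases atc s with h | h | h | h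
        · exact absurd h (nmA ha s)
        · rw [h]; exact h2p'
        · rw [h]; exact h2e
        · exact absurd h (nmD hd s)
      · left
        refine ⟨hk2, -z, fun s => Helper24.EE n P F (t0 s) (v0 s), by ring,
          fin x1 (-z) fun s => ?_, hv0⟩
        rcases atc s with h | h | h | h
        · exact absurd h (nmA ha s)
        · rw [h]; exact h1p'
        · exact absurd h (nmC hc s)
        · rw [h]; exact h1e'
    · -- the form is killed
      have hab : ((nA t0 : ℤ) - nB t0 = 1) ∨ ((nA t0 : ℤ) - nB t0 = -1) := by omega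
      have hc1 : ((nC t0 : ℤ) - nD t0 = 1) ∨ ((nC t0 : ℤ) - nD t0 = -1) := by omega
      have hsign : ((nA t0 : ℤ) - nB t0 = -(nC t0 - nD t0)) ∨
          ((nA t0 : ℤ) - nB t0 = nC t0 - nD t0) := by omega
      rcases hsign with hs | hs
      · left
        intro v
        rw [act_labels]
        refine Finset.sum_eq_zero fun t _ => ?_
        by_cases hv : α (fun r => Helper24.EE n P F (t r) (v r)) = 0
        · rw [hv, mul_zero]
        · have h5 := hcross t v hv
          rw [hs] at h5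
          have h6 : (nC t0 : ℤ) - nD t0 ≠ 0 := by omega
          have h7 : ((nA t : ℤ) - nB t) + (nC t - nD t) = 0 := by
            apply mul_right_cancel₀ h6
            linear_combination h5
          have h8 : (((nA t : ℂ) - nB t) + ((nC t : ℂ) - nD t)) = 0 := by exact_mod_cast h7
          rw [hev1 t v hv, h8, zero_mul, zero_mul]
      · right; left
        intro v
        rw [act_labels]
        refine Finset.sum_eq_zero fun t _ => ?_
        by_cases hv : α (fun r => Helper24.EE n P F (t r) (v r)) = 0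
        · rw [hv, mul_zero]
        · have h5 := hcross t v hv
          rw [hs] at h5
          have h6 : (nC t0 : ℤ) - nD t0 ≠ 0 := by omega
          have h7 : ((nA t : ℤ) - nB t) - (nC t - nD t) = 0 := by
            apply mul_right_cancel₀ h6
            linear_combination h5
          have h8 : (((nA t : ℂ) - nB t) - ((nC t : ℂ) - nD t)) = 0 := by exact_mod_cast h7
          rw [hev2 t v hv, h8, zero_mul, zero_mul]
  · -- products of divisor classes
    left
    push Not at hcase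
    have hspan : α ∈ Submodule.span ℂ
        {ω | ∃ γ : Fin k → (HW κ n →ₗ[ℂ] HW κ n →ₗ[ℂ] ℂ), (∀ a, γ a ∈ GW n P) ∧ ω = wedge γ} := by
      refine wedge_of_span2 n P M hϖ hBM hAM _ ?_
      refine mem_of_PS _ ?_
      have h1 : (fun v => (α : MultilinearMap ℂ (fun _ : Fin (2 * k) => HW κ n) ℂ) v) =
          ∑ a : Fin (2 * k) → At n K, (fun v : Fin (2 * k) → HW κ n =>
            α (fun r => Helper24.EE n P F (a r) (v r))) := by
        funext v
        rw [Finset.sum_apply]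
        exact Helper24.sum_labels n P F α v
      rw [h1]
      refine Submodule.sum_mem _ fun t _ => ?_
      by_cases hz : ∀ v : Fin (2 * k) → HW κ n, α (fun r => Helper24.EE n P F (t r) (v r)) = 0
      · exact PS_of_zero n P M hz
      · push Not at hz
        obtain ⟨v, hv⟩ := hz
        exact (hlab t v hv).2.2.1 (hcase t v hv)
    exact fun v => span_killed (dgJ n P F x1) (GW n P) hsk α hspan v

end family

end Pool.Agent.Helper7
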