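import Pool.Agent.Helper7.AFD.ThreeOne
import Pool.Agent.Helper7.W4.Unbal0

/-!
A simple fourfold whose endomorphism algebra is an imaginary quadratic field: the dichotomy.
-/

namespace Pool.Agent.GPC

open Module NumberField Pool.Agent.Helper7

theorem four_dich0 (hNS : NotScalarProp) {I : Type} [Fintype I] (A : I → AbVar) (n : I → ℕ)
    (hs : ∀ i, (A i).IsSimple)
    (i : I) (hI : ∀ j, j = i) (hn : ∀ i, n i = 1)
    (hi : (A i).g = 4) (d : ℚ) (hq : (A i).IsQuadEnd d) :
    (∃ J : H1 A n → H1 A n, IsWeilStructure A n d J ∧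
      ∀ (k : ℕ) (α : Form A n (2 * k)), IsGrothendieck A n k α →
        ∀ v, ∑ r, α (Function.update v r (J (v r))) = 0) ∨
    ∃ w : Form A n (2 * 2), w ≠ 0 ∧ IsWeilClass A n 2 w ∧ IsGrothendieck A n 2 w := by
  classical
  have hd : 0 < d := hq.1
  have hq' : ∀ j, (A j).IsQuadEnd d := fun j => by rw [hI j]; exact hq
  choose jj hjE hj2 hall using fun j => (hq' j).2
  have HQ : ∀ j, (A j).IsQuadBy d (jj j) := fun j => ⟨hd, hjE j, hj2 j, hall j⟩
  have hmm : ∀ j, 0 < n j := fun j => by rw [hn j]; exact one_pos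
  have hm0 : ∀ (j : I) (m : Fin (n j)), m = ⟨0, hmm j⟩ := fun j m =>
    Fin.ext (by have := m.2; have := hn j; simp only; omega)
  -- the operator is skew
  have hskew : ∀ (u v : (A i).H1), (A i).pol (jj i u) v = - (A i).pol u (jj i v) := by
    obtain ⟨K, _, _, hCM, ρ, x, C, h2, hx⟩ := (HQ i).exists_cm (by omega)
    obtain ⟨F, hF, -⟩ := nonempty_UFh (A i) K ρ C 4 (by rw [h2, hi])
    have hFx : ∀ v, F.ρ x v = jj i v := fun v => by rw [hF, hx]
    have hsq : ∀ (ν : K →+* ℂ), (ν x) ^ 2 = -(d : ℂ) := by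
      intro ν
      have h1 := hj2 i (F.e ν 0)
      rw [← hFx, ← hFx, F.rho_e, map_smul, F.rho_e, smul_smul, ← sub_eq_zero, ← sub_smul,
        smul_eq_zero] at h1
      rw [pow_two]
      exact sub_eq_zero.mp (h1.resolve_right (Pool.Agent.Helper24.e_ne F ν 0))
    have hcc : F.cc x = - x := by
      obtain ⟨ν⟩ : Nonempty (K →+* ℂ) := inferInstance
      apply ν.injective
      rw [F.hcc, map_neg, conj_of_sq hd (hsq ν)]
    intro u v
    have h1 := F.hros x u v
    rw [hcc, map_neg, LinearMap.neg_apply, hFx, hFx, map_neg] at h1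
    exact h1
  -- the Weil structure
  obtain ⟨J, hJdef⟩ : ∃ J : H1 A n → H1 A n, J = fun v j m => jj j (v j m) := ⟨_, rfl⟩
  have hJW : IsWeilStructure A n d J := by
    rw [hJdef]
    refine ⟨hd, Helper39.AF.isEndo_diag hjE, fun v => ?_, ?_, Or.inl fun f hf v => ?_⟩
    · funext j m
      exact hj2 j (v j m)
    · rintro ⟨c, hc⟩
      refine hNS (A i) (hs i) (by omega) d hd (jj i) (hjE i) (hj2 i) hskew ⟨c, fun u hu => ?_⟩
      have h3 := hc _ (isFil_slot A n i ⟨0, hmm i⟩ u hu)
      have h4 := congrArg (fun v : H1 A n => v i ⟨0, hmm i⟩) h3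
      simp only [Pi.smul_apply, slotL_self] at h4
      exact h4
    · funext j m
      have hadd := hf.linear
      -- the component of an endomorphism
      obtain ⟨T, hT, hfT⟩ := Helper39.AF.endo_diag hn
        (fun j j' hjj => absurd ((hI j).trans (hI j').symm) hjj) hf
      show jj j (f v j m) = f (fun j m => jj j (v j m)) j m
      rw [hfT, hfT]
      exact (HQ j).comm (hjE j) (hT j) (v j m)
  by_cases hall' : ∀ (k : ℕ) (α : Form A n (2 * k)), IsGrothendieck A n k α →
        ∀ v, ∑ r, α (Function.update v r (J (v r))) = 0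
  · exact Or.inl ⟨J, hJW, hall'⟩
  · right
    push Not at hall'
    obtain ⟨k, α, hα, v, hv⟩ := hall'
    -- transport to the first power
    let Ψ : H1 (fun _ : Unit => A i) (fun _ => 1) →ₗ[ℂ] H1 A n :=
      { toFun := fun u => slotL n (κ := fun i => Fin (A i).g ⊕ Fin (A i).g) i ⟨0, hmm i⟩ (u () 0)
        map_add' := fun u u' => by rw [Pi.add_apply, Pi.add_apply, map_add]
        map_smul' := fun c u => by rw [Pi.smul_apply, Pi.smul_apply, map_smul]; rfl }
    have hΨ : ∀ u, Ψ u = slotL n (κ := fun i => Fin (A i).g ⊕ Fin (A i).g) i ⟨0, hmm i⟩ (u () 0) :=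
      fun _ => rfl
    have hΨJ : ∀ u, J (Ψ u) = Ψ (fun a b => jj i (u a b)) := by
      intro u
      rw [hJdef]
      funext j m
      show jj j (Ψ u j m) = Ψ (fun a b => jj i (u a b)) j m
      rw [hΨ, hΨ]
      have hj := hI j
      subst hj
      rw [hm0 j m, slotL_self, slotL_self]
    have hsurj : ∀ w : H1 A n, Ψ (fun _ _ => w i ⟨0, hmm i⟩) = w := by
      intro w
      rw [hΨ]
      funext j m
      have hj := hI j
      subst hj
      rw [hm0 j m, slotL_self]
    have hα' : IsGrothendieck (fun _ : Unit => A i) (fun _ => 1) k (α.compLinearMap Ψ) := by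
      refine ⟨fun v hv => ?_, fun v hv => ?_⟩
      · exact hα.1 (fun r => Ψ (v r)) fun r j m =>
          slotL_cases A n i ⟨0, hmm i⟩ (v r () 0) (fun j u => (A j).IsDeRham u)
            (fun j => isDeRham_zero' _) (hv r () 0) j m
      · exact hα.2 (fun r => Ψ (v r)) fun r j m =>
          slotL_cases A n i ⟨0, hmm i⟩ (v r () 0) (fun j u => (A j).IsBetti u)
            (fun j => isBetti_zero' _) (hv r () 0) j m
    have hnot : ¬ ∀ v : Fin (2 * k) → H1 (fun _ : Unit => A i) (fun _ => 1),
        ∑ r, (α.compLinearMap Ψ) (Function.update v r (fun a b => jj i (v r a b))) = 0 := by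
      intro h
      apply hv
      have h1 := h (fun r => fun _ _ => v r i ⟨0, hmm i⟩)
      rw [← h1]
      refine Finset.sum_congr rfl fun r _ => ?_
      rw [AlternatingMap.compLinearMap_apply]
      congr 1
      funext s
      by_cases hs : s = r
      · subst hs
        rw [Function.update_self, Function.update_self, ← hΨJ, hsurj]
      · rw [Function.update_of_ne hs, Function.update_of_ne hs, hsurj]
    obtain ⟨w, hw0, hw1, hw2, hw3⟩ := exists_weil_of_unbalanced0 (A i) hi d (jj i) (HQ i) 1 k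
      (α.compLinearMap Ψ) hα' hnot
    obtain ⟨w', hw'⟩ : ∃ w' : Form A n (2 * 2), ∀ v, w' v = w (fun r => v r i ⟨0, hmm i⟩) :=
      ⟨w.compLinearMap (prL n (κ := fun i => Fin (A i).g ⊕ Fin (A i).g) i ⟨0, hmm i⟩),
        fun _ => rfl⟩
    have hrat : ∀ v : Fin (2 * 2) → H1 A n, (∀ r, IsBetti A n (v r)) →
        ∃ c : ℚ, w' v = (2 * Real.pi * Complex.I) ^ 2 * c := by
      intro v hv
      rw [hw']
      exact hw2 _ fun r => hv r i ⟨0, hmm i⟩
    refine ⟨w', ?_, ⟨⟨rfl, ?_⟩, hrat, d, J, hJW, ?_⟩, ?_, hrat⟩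
    · intro h0
      apply hw0
      ext u
      have h1 := hw' (fun r => Ψ (fun _ _ => u r))
      rw [h0] at h1
      have h2 : (fun r => Ψ (fun _ _ => u r) i ⟨0, hmm i⟩) = u := by
        funext r
        rw [hΨ, slotL_self]
      rw [h2] at h1
      exact h1.symm
    · rw [Finset.sum_eq_single i, hn, hi]
      · intro j _ hj; exact absurd (hI j) hj
      · intro h; exact absurd (Finset.mem_univ _) h
    · intro v r s
      rw [hw', hw']
      have e : ∀ r, (fun t => Function.update v r (J (v r)) t i ⟨0, hmm i⟩) =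
          Function.update (fun t => v t i ⟨0, hmm i⟩) r (jj i (v r i ⟨0, hmm i⟩)) := by
        intro r
        funext t
        by_cases ht : t = r
        · subst ht
          rw [Function.update_self, Function.update_self, hJdef]
        · rw [Function.update_of_ne ht, Function.update_of_ne ht]
      rw [e, e]
      exact hw1 (fun t => v t i ⟨0, hmm i⟩) r s
    · intro v hv
      rw [hw']
      exact hw3 _ fun r => hv r i ⟨0, hmm i⟩

end Pool.Agent.GPC
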