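import Pool.Agent.Helper7.AFD.Core
import Pool.Agent.Helper7.AF.Q31
import Pool.Agent.Helper7.W4.Quad
import Pool.Agent.Helper39.AF.Exc

/-!
Threefold times elliptic curve with the same imaginary quadratic field: the dichotomy.
-/

namespace Pool.Agent.GPC

open Module NumberField LieAlgebra Pool.Agent.Helper7

set_option linter.unusedSectionVars false

/-- an imaginary quadratic field does not act by scalars on the Lie algebra -/
def NotScalarProp : Prop := ∀ (X : AbVar), X.IsSimple → 2 ≤ X.g → ∀ d : ℚ, 0 < d →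
  ∀ J : X.H1 → X.H1, X.IsEnd J → (∀ v, J (J v) = (-(d : ℂ)) • v) →
  (∀ u v, X.pol (J u) v = - X.pol u (J v)) → ¬ ∃ c : ℂ, ∀ v, X.IsFil v → J v = c • v

lemma isFil_slot {I : Type} [DecidableEq I] (A : I → AbVar) (n : I → ℕ) (i : I) (m : Fin (n i))
    (u : (A i).H1) (hu : (A i).IsFil u) :
    IsFil A n (slotL n (κ := fun i => Fin (A i).g ⊕ Fin (A i).g) i m u) := fun j m' =>
  slotL_cases A n i m u (fun j u => (A j).IsFil u) (fun _ _ => rfl) hu j m'

theorem three_one_dich0 (hNS : NotScalarProp) {I : Type} [Fintype I] (A : I → AbVar) (n : I → ℕ)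
    (hs : ∀ i, (A i).IsSimple)
    (hA : ∀ i j, i ≠ j → ∀ f, (A i).IsMor (A j) f → ∀ v, f v = 0)
    (p e : I) (hI : ∀ j, j = p ∨ j = e) (hn : ∀ i, n i = 1)
    (hp : (A p).g = 3) (he : (A e).g = 1) (d : ℚ) (hqp : (A p).IsQuadEnd d)
    (hqe : (A e).IsQuadEnd d) (k : ℕ)
    (α : Form A n (2 * k)) (hα : IsGrothendieck A n k α) :
    ∃ J : H1 A n → H1 A n, IsWeilStructure A n d J ∧
      ((∀ v, ∑ r, α (Function.update v r (J (v r))) = 0) ∨
       (k = 2 ∧ ∃ (z : ℂ) (v : Fin (2 * k) → H1 A n), z ^ 2 = -(d : ℂ) ∧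
         (∀ r, J (v r) = z • v r) ∧ α v ≠ 0)) := by
  classical
  obtain ⟨hα1, hα2⟩ := id hα
  have hpe : p ≠ e := by
    intro h
    rw [h, he] at hp
    omega
  have hd : 0 < d := hqp.1
  have hq : ∀ i, (A i).IsQuadEnd d := fun i => by
    rcases hI i with h | h
    · rw [h]; exact hqp
    · rw [h]; exact hqe
  have hg : ∀ i, 0 < (A i).g := fun i => by
    rcases hI i with h | h
    · rw [h]; omega
    · rw [h]; omega
  choose j hjE hj2 hall using fun i => (hq i).2
  have HQ : ∀ i, (A i).IsQuadBy d (j i) := fun i => ⟨hd, hjE i, hj2 i, hall i⟩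
  choose K hK1 hK2 hCM ρ x C h2 hx using fun i => (HQ i).exists_cm (hg i)
  obtain ⟨r, hr⟩ : ∃ r : I → ℕ, r = fun i => if i = p then 3 else 1 := ⟨_, rfl⟩
  have hrp : r p = 3 := by rw [hr]; exact if_pos rfl
  have hre : r e = 1 := by rw [hr]; exact if_neg (Ne.symm hpe)
  have hF : ∀ i, ∃ F : UF (pData (A i)) (K i) (r i), ∀ x v, F.ρ x v = ρ i x v := by
    intro i
    obtain ⟨F, hF, -⟩ := nonempty_UFh (A i) (K i) (ρ i) (C i) (r i) (by
      rcases hI i with h | h
      · rw [h2, h, hrp, hp]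
      · rw [h2, h, hre, he])
    exact ⟨F, hF⟩
  choose F hFρ using hF
  have hFx : ∀ i v, (F i).ρ (x i) v = j i v := fun i v => by rw [hFρ, hx]
  -- squares of the embeddings
  have hsq : ∀ (i : I) (ν : K i →+* ℂ), (ν (x i)) ^ 2 = -(d : ℂ) := by
    intro i ν
    have hri : 0 < r i := by
      rcases hI i with h | h
      · rw [h]; omega
      · rw [h]; omega
    have h1 := hj2 i ((F i).e ν ⟨0, hri⟩)
    rw [← hFx, ← hFx, (F i).rho_e, map_smul, (F i).rho_e, smul_smul, ← sub_eq_zero, ← sub_smul,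
      smul_eq_zero] at h1
    rw [pow_two]
    exact sub_eq_zero.mp (h1.resolve_right (Pool.Agent.Helper24.e_ne (F i) ν ⟨0, hri⟩))
  have hconj : ∀ (i : I) (ν : K i →+* ℂ), ComplexEmbedding.conjugate ν (x i) = -ν (x i) := by
    intro i ν
    rw [ComplexEmbedding.conjugate_coe_eq, conj_of_sq hd (hsq i ν)]
  have hne' : ∀ (i : I) (ν : K i →+* ℂ), ComplexEmbedding.conjugate ν ≠ ν := fun i ν hν =>
    IsTotallyComplex.complexEmbedding_not_isReal ν (ComplexEmbedding.isReal_iff.mpr hν)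
  obtain ⟨σ⟩ : Nonempty (K p →+* ℂ) := inferInstance
  obtain ⟨z, hz⟩ : ∃ z, z = σ (x p) := ⟨_, rfl⟩
  have hzd : z ^ 2 = -(d : ℂ) := by rw [hz]; exact hsq p σ
  obtain ⟨τ, hτz⟩ : ∃ τ : K e →+* ℂ, τ (x e) = z := by
    obtain ⟨τ⟩ : Nonempty (K e →+* ℂ) := inferInstance
    have h1 : (τ (x e)) ^ 2 = -(d : ℂ) := hsq e τ
    have h3 : (τ (x e) - z) * (τ (x e) + z) = 0 := by
      linear_combination h1 - hzd
    rcases mul_eq_zero.mp h3 with h4 | h4
    · exact ⟨τ, sub_eq_zero.mp h4⟩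
    · refine ⟨ComplexEmbedding.conjugate τ, ?_⟩
      rw [hconj, eq_neg_of_add_eq_zero_left h4, neg_neg]
  -- the two operators
  obtain ⟨x2, hx2⟩ : ∃ x2 : ∀ i, K i, x2 = fun i => if i = e then -x i else x i := ⟨_, rfl⟩
  have hx2p : x2 p = x p := by rw [hx2]; exact if_neg hpe
  have hx2e : x2 e = -x e := by rw [hx2]; exact if_pos rfl
  have hx2c : ∀ i, x2 i = x i ∨ x2 i = - x i := by
    intro i
    rw [hx2]
    by_cases h : i = e
    · right; exact if_pos h
    · left; exact if_neg h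
  have hskew : ∀ i (u v : (A i).H1), (A i).pol (j i u) v = - (A i).pol u (j i v) := by
    intro i u v
    have hcc : (F i).cc (x i) = - x i := by
      obtain ⟨ν⟩ : Nonempty (K i →+* ℂ) := inferInstance
      apply ν.injective
      rw [(F i).hcc, map_neg, ← hconj, ComplexEmbedding.conjugate_coe_eq]
    have h1 := (F i).hros (x i) u v
    rw [hcc, map_neg, LinearMap.neg_apply, hFx, hFx, map_neg] at h1
    exact h1
  -- Weil structures
  have hweil : ∀ y : ∀ i, K i, (∀ i, y i = x i ∨ y i = - x i) →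
      IsWeilStructure A n d (fun v i m => (F i).ρ (y i) (v i m)) := by
    intro y hy
    have hyE : ∀ i, (A i).IsEnd (fun v => (F i).ρ (y i) v) := fun i =>
      isEnd_of_isDRB _ _ ((F i).hρ (y i))
    have hyv : ∀ i, (∀ v, (F i).ρ (y i) v = j i v) ∨ (∀ v, (F i).ρ (y i) v = - j i v) := by
      intro i
      rcases hy i with h | h
      · left; intro v; rw [h, hFx]
      · right; intro v; rw [h, map_neg, LinearMap.neg_apply, hFx]
    refine ⟨hd, Helper39.AF.isEndo_diag hyE, ?_, ?_, Or.inl ?_⟩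
    · intro v
      funext i m
      show (F i).ρ (y i) ((F i).ρ (y i) (v i m)) = (-(d : ℂ)) • v i m
      rcases hyv i with h | h
      · rw [h, h, hj2]
      · rw [h, h, (hjE i).linear.map_neg, neg_neg, hj2]
    · rintro ⟨c, hc⟩
      have h1 : ∀ u, (A p).IsFil u → (F p).ρ (y p) u = c • u := by
        intro u hu
        have h3 := hc _ (isFil_slot A n p ⟨0, by rw [hn]; exact one_pos⟩ u hu)
        have h4 := congrArg (fun v : H1 A n => v p ⟨0, by rw [hn]; exact one_pos⟩) h3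
        simp only [Pi.smul_apply, slotL_self] at h4
        exact h4
      rcases hyv p with h | h
      · refine hNS (A p) (hs p) (by omega) d hd (j p) (hjE p) (hj2 p) (hskew p) ⟨c, fun v hv => ?_⟩
        rw [← h, h1 v hv]
      · refine hNS (A p) (hs p) (by omega) d hd (j p) (hjE p) (hj2 p) (hskew p)
          ⟨-c, fun v hv => ?_⟩
        have h3 := h1 v hv
        rw [h] at h3
        rw [neg_smul, ← h3, neg_neg]
    · intro f hf v
      obtain ⟨T, hT, hfT⟩ := Helper39.AF.endo_diag hn hA hf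
      funext i m
      show (F i).ρ (y i) (f v i m) = f (fun i m => (F i).ρ (y i) (v i m)) i m
      rw [hfT, hfT]
      exact (HQ i).comm (hyE i) (hT i) (v i m)
  have hϖ := Complex.two_pi_I_ne_zero
  have hQB : ∀ v : HW (fun i => Fin (A i).g ⊕ Fin (A i).g) n,
      IsRatP n (fun i => pData (A i)) v → IsBetti A n v := fun v hv i m =>
    (mem_pData_Q _ _).mp (hv i m)
  have hcom : ∀ i (f : (A i).H1 →ₗ[ℂ] (A i).H1), IsDRB (pData (A i)) (pData (A i)) f →
      ∀ u, f ((F i).ρ (x i) u) = (F i).ρ (x i) (f u) := fun i f hf u =>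
    (HQ i).comm (isEnd_of_isDRB _ f hf) (isEnd_of_isDRB _ _ ((F i).hρ (x i))) u
  have hHom : ∀ i i' : I, i ≠ i' → ∀ f : (A i).H1 →ₗ[ℂ] (A i').H1,
      IsDRB (pData (A i)) (pData (A i')) f → f = 0 := by
    intro i i' hii f hf
    exact LinearMap.ext fun v => hA i i' hii f (Helper39.AF.isMor_of _ _ f.isLinear
      ((isDRB_iff _ _ f).mp hf).1 ((isDRB_iff _ _ f).mp hf).2) v
  have h0 := q31d_core (κ := fun i => Fin (A i).g ⊕ Fin (A i).g) n (fun i => pData (A i)) F hI
    (hn p) (hn e) σ τ (fun σ' => Pool.Agent.Helper24.emb_two (h2 p) σ σ')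
    (fun τ' => Pool.Agent.Helper24.emb_two (h2 e) τ τ') hpe hrp hre (hne' p σ) (hne' e τ)
    x x2 hz.symm (by rw [hconj, ← hz]) hτz (by rw [hconj, hτz])
    (by rw [hx2p]; exact hz.symm) (by rw [hx2p, hconj, ← hz]) (by rw [hx2e, map_neg, hτz])
    (by rw [hx2e, map_neg, hconj, hτz, neg_neg]) hϖ
    (by
      rintro v hv hv0 ⟨c, u, hu, hvu⟩
      rw [pData_Q] at hv
      obtain ⟨N, l, hN, hl, hNl⟩ := betti_eq_period (A e) v hv
      have hNC : (N : ℂ) ≠ 0 := Nat.cast_ne_zero.mpr hN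
      refine (A e).periods_not_proportional l hl ?_ ⟨N * c, u, hu, ?_⟩
      · rintro rfl
        apply hv0
        have h1 : (A e).period 0 = 0 := map_zero (periodHom (A e))
        rw [h1, smul_eq_zero] at hNl
        exact hNl.resolve_left hNC
      · rw [← hNl, hvu, smul_smul])
    (fun γ hγ u v => GW_skew n (fun i => pData (A i)) F x hHom hcom
      (fun i u v => by
        rw [hFx, hFx]
        exact hskew i u v) γ hγ u v)
    α (fun v hv => hα2 v (fun r => hQB _ (hv r))) hα1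
  rcases h0 with h0 | h0 | ⟨hk, z', v, hz', hv, hv0⟩ | ⟨hk, z', v, hz', hv, hv0⟩
  · exact ⟨_, hweil x (fun i => Or.inl rfl), Or.inl h0⟩
  · exact ⟨_, hweil x2 hx2c, Or.inl h0⟩
  · exact ⟨_, hweil x (fun i => Or.inl rfl), Or.inr ⟨hk, z', v, by rw [hz', hzd], hv, hv0⟩⟩
  · exact ⟨_, hweil x2 hx2c, Or.inr ⟨hk, z', v, by rw [hz', hzd], hv, hv0⟩⟩

end Pool.Agent.GPC
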